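import Pool.Agent.Y751.SW.Lin

set_option autoImplicit false

/-!
# All windows around almost all `p` of an arbitrary set with `p`, `2 p - 1` prime or almost prime

Let `R r` be the set of the `p` such that all prime factors of `p` and `2 p - 1` are larger than
`p ^ (1 / r)`; it contains all primes `p` with `2 p - 1` prime. For every subset `A` of `R r`, in every
interval of length `X ^ θ`, all windows of at least polylogarithmic length around all but a small proportion
of the expected number of elements of `A` contain the right order of elements of `A`, almost all of them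
in long narrow arithmetic progressions of elements of `A` in the same window, and `A` has a constant density
around these elements at all but boundedly many scales.
-/

namespace Pool.Agent.Results.MP_0fefc4_nt.AllWindowsAllSubsets

open Finset Filter
open Pool.Agent.TH977.PW (N)
open Pool.Agent.Y751.SW (Nice Bad)

/-- All prime factors of `p` and `2 p - 1` are larger than `p ^ (1 / r)`. -/
def R (r : ℕ) : Set ℕ :=
  {p | ∀ q : ℕ, q.Prime → q ∣ p ∨ q ∣ 2 * p - 1 → (p : ℝ) ^ (1 / (r : ℝ)) < (q : ℝ)}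

/-- The `p` of `R r` for which `p` and `2 p - 1` have at most `r` prime factors. -/
def P (r : ℕ) : Set ℕ :=
  {p | p ∈ R r ∧ p.primeFactorsList.length ≤ r ∧ (2 * p - 1).primeFactorsList.length ≤ r}

theorem cast0 (m : ℕ) : ((![1, 2] (0 : Fin 2) : ℕ) : ℤ) * (m : ℤ) + (![0, -1] : Fin 2 → ℤ) 0 = (m : ℤ) := by
  simp

theorem cast1 (m : ℕ) (hm : 1 ≤ m) :
    ((![1, 2] (1 : Fin 2) : ℕ) : ℤ) * (m : ℤ) + (![0, -1] : Fin 2 → ℤ) 1 = ((2 * m - 1 : ℕ) : ℤ) := by
  simp only [Matrix.cons_val_one, Matrix.cons_val_zero]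
  push_cast [Nat.cast_sub (by omega : 1 ≤ 2 * m)]
  ring

theorem zero_lt (r q : ℕ) (hr : 2 ≤ r) (hq : q.Prime) : ((0 : ℕ) : ℝ) ^ (1 / (r : ℝ)) < (q : ℝ) := by
  have hr0 : (0 : ℝ) < r := by exact_mod_cast (by omega : 0 < r)
  rw [Nat.cast_zero, Real.zero_rpow (by positivity)]
  exact_mod_cast hq.pos

theorem result (θ : ℝ) (hθ : 0 < θ) (hθ1 : θ ≤ 1) : ∃ r₀ : ℕ, 2 ≤ r₀ ∧ ∀ r : ℕ, r₀ ≤ r →
    (∀ p : ℕ, p.Prime → (2 * p - 1).Prime → p ∈ R r) ∧
    (∃ κ c : ℝ, 0 < κ ∧ 0 < c ∧ ∀ (l : ℕ) (η : ℝ), 2 ≤ l → 0 < η → ∃ B : ℕ,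
      ∀ᶠ X : ℕ in atTop, ∀ Y : ℕ, (X : ℝ) ^ θ ≤ Y → 4 * Y ≤ X →
        κ * Y / Real.log X ^ 2 ≤ N (Nice (P r) 2 l c η B X Y) X (X + Y)) ∧
    ∀ ε : ℝ, 0 < ε → ∃ c : ℝ, 0 < c ∧ ∀ (l : ℕ) (η : ℝ), 2 ≤ l → 0 < η → ∃ B : ℕ,
      ∀ᶠ X : ℕ in atTop, ∀ Y : ℕ, (X : ℝ) ^ θ ≤ Y → 4 * Y ≤ X → ∀ A : Set ℕ, A ⊆ R r →
        (N (Bad A 2 l c η B X Y) X (X + Y) : ℝ) ≤ ε * Y / Real.log X ^ 2 := by
  obtain ⟨r0, hr0, h⟩ := Pool.Agent.Y751.SW.lin_full ![1, 2] ![0, -1]
    (fun i => by fin_cases i <;> simp)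
    (fun i => by
      fin_cases i
      · exact isCoprime_one_left
      · exact ⟨0, -1, by simp⟩)
    (fun i j h1 _ => by
      fin_cases i <;> fin_cases j <;> simp_all)
    (fun p hp => by
      refine ⟨1, fun i hd => ?_⟩
      have h1 : (p : ℤ) ∣ 1 := by
        fin_cases i
        · simpa using hd
        · simpa using hd
      have h2 : p ∣ 1 := by exact_mod_cast h1
      exact hp.one_lt.ne' (Nat.dvd_one.1 h2))
    R P (fun _ _ hp => hp.1) 2 (Fintype.card_fin 2)
    (fun r m hr hm i p hp hd => by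
      rcases Nat.eq_zero_or_pos m with hm0 | hm0
      · rw [hm0]
        exact zero_lt r p hr hp
      fin_cases i
      · apply hm p hp
        left
        have h1 := cast0 m
        have h2 : (p : ℤ) ∣ (m : ℤ) := by rw [← h1]; exact hd
        exact_mod_cast h2
      · apply hm p hp
        right
        have h1 := cast1 m hm0
        have h2 : (p : ℤ) ∣ ((2 * m - 1 : ℕ) : ℤ) := by rw [← h1]; exact hd
        exact_mod_cast h2)
    (fun r m hr h1 h2 => by
      rcases Nat.eq_zero_or_pos m with hm0 | hm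
      · rw [hm0]
        exact ⟨fun q hq _ => zero_lt r q hr hq, by simp, by simp⟩
      refine ⟨fun q hq hd => ?_, ?_, ?_⟩
      · rcases hd with hd | hd
        · apply h1 0 q hq
          rw [cast0]
          exact_mod_cast hd
        · apply h1 1 q hq
          rw [cast1 m hm]
          exact_mod_cast hd
      · have h3 := h2 0
        rw [cast0, Int.natAbs_natCast] at h3
        exact h3
      · have h3 := h2 1
        rw [cast1 m hm, Int.natAbs_natCast] at h3
        exact h3) θ hθ hθ1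
  refine ⟨r0, hr0, fun r hr => ⟨?_, h r hr⟩⟩
  intro p hp h2p
  have h2 : 2 ≤ p := hp.two_le
  intro q hq hd
  rcases hd with hd | hd
  · exact Pool.Agent.TH977.PW.rpow_lt_dvd r p q (hr0.trans hr) hp hq hd
  · rw [(Nat.prime_dvd_prime_iff_eq hq h2p).1 hd]
    exact Pool.Agent.TH977.PW.rpow_lt_of_le r p (2 * p - 1) (hr0.trans hr) h2 (by omega)

end Pool.Agent.Results.MP_0fefc4_nt.AllWindowsAllSubsets
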