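import Pool.Agent.Y863.AA.MulAll

/-!
# One of the iterates `k, 2k, 3k` of `x ↦ 2 x - 1`, for almost all `k`

Let `S x = 2 x - 1` and let `J` be the set of the `j` such that `S^j(p)` is prime for infinitely many
primes `p`, more precisely for at least `x ^ (1 - η)` primes `p ≤ x` for arbitrarily large `x`, for every
`η > 0`. The question is whether `1` is in `J`. For every set `E` of `T > (4 - c) M` exponents, in all
long intervals all but a proportion `ε` of the `k` are such that `E` has `M + 1` elements all of whose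
differences, multiplied by `k`, are in `J`. For `E = {0, 1, 2, 3}` and `M = 1` this says that one of
`k, 2k, 3k` is in `J`.

The coloured Maynard-Tao theorem with a constant below `4` (`Pool.Agent.TH899.UG.NW.exactW`) is from
the starting files, the density Hales-Jewett theorem (`Pool.Agent.H602R3.DHJ`) is from the team's files.
-/

set_option autoImplicit false

namespace Pool.Agent.Results.MP_0fefc4_nt.AlmostAllMultiples

open Finset Filter

/-- the map `x ↦ 2 x - 1` -/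
def S (x : ℕ) : ℕ := 2 * x - 1

/-- for every `η > 0`, for arbitrarily large `x`, at least `x ^ (1 - η)` primes `p ≤ x` are such that
`S^j(p)` is prime -/
def Occurs (j : ℕ) : Prop :=
  ∀ η : ℝ, 0 < η → ∃ᶠ x : ℝ in atTop, x ^ (1 - η) ≤
    ({p : ℕ | (p.Prime ∧ (S^[j] p).Prime) ∧ (p : ℝ) ≤ x}.ncard : ℝ)

open Pool.Agent.W25.IT in
theorem iter_cast (p j : ℕ) (hp : 1 ≤ p) : ((S^[j] p : ℕ) : ℤ) = itc (-1) 2 j + p * 2 ^ j := by
  have h1 : ∀ j : ℕ, S^[j] p = 2 ^ j * (p - 1) + 1 := by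
    intro j
    induction j with
    | zero => simp; omega
    | succ j ih =>
      rw [Function.iterate_succ_apply', ih]
      unfold S
      rw [pow_succ]
      have : 2 * (2 ^ j * (p - 1) + 1) = 2 ^ j * 2 * (p - 1) + 2 := by ring
      omega
  have h2 : ∀ j : ℕ, itc (-1) 2 j = -(2 ^ j - 1) := by
    intro j
    induction j with
    | zero => rw [itc_zero]; norm_num
    | succ j ih => rw [itc_succ, ih]; ring
  rw [h1, h2]
  push_cast [Nat.cast_sub hp]
  ring

open Pool.Agent.W25.IT in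
theorem occurs_of (j : ℕ) (h : GoodPair (itc (-1) 2 j) (2 ^ j)) : Occurs j := by
  obtain ⟨-, -, -, h⟩ := h
  intro η hη
  refine (h η hη).mono fun x hx => ?_
  convert hx using 3
  ext p
  constructor
  · rintro ⟨⟨h1, h2⟩, h3⟩
    exact ⟨⟨h1, S^[j] p, h2, (iter_cast p j h1.one_lt.le).symm⟩, h3⟩
  · rintro ⟨⟨h1, p', hp', h2⟩, h3⟩
    refine ⟨⟨h1, ?_⟩, h3⟩
    rw [← iter_cast p j h1.one_lt.le] at h2
    have : S^[j] p = p' := by exact_mod_cast h2
    rw [this]; exact hp'

open Classical in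
theorem result : ∃ c : ℝ, 0 < c ∧ ∀ T M : ℕ, (4 - c) * M < T → ∀ E : Finset ℕ, E.card = T →
    ∀ ε : ℝ, 0 < ε → ∃ L : ℕ, ∀ u H : ℕ, L ≤ H →
      (((Ioc u (u + H)).filter (fun k : ℕ => ¬ ∃ F : Finset ℕ, F ⊆ E ∧ M + 1 ≤ F.card ∧
        ∀ e ∈ F, ∀ e' ∈ F, e < e' → Occurs ((e' - e) * k))).card : ℝ) ≤ ε * H := by
  obtain ⟨c, hc, -, h⟩ := Pool.Agent.Y863.AA.mulTwo
  refine ⟨c, hc, fun T M hTM E hE ε hε => ?_⟩
  obtain ⟨L, hL⟩ := h T M hTM E hE ε hε
  refine ⟨L, fun u H hH => ?_⟩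
  refine le_trans ?_ (hL (-1) (by norm_num) ⟨by decide, by norm_num⟩ u H hH)
  rw [Nat.cast_le]
  apply card_le_card
  intro k hk
  obtain ⟨h1, h2⟩ := mem_filter.1 hk
  refine mem_filter.2 ⟨h1, ?_⟩
  rintro ⟨F, hF, hM, hg⟩
  exact h2 ⟨F, hF, hM, fun e he e' he' hlt => occurs_of _ (hg e he e' he' hlt)⟩

end Pool.Agent.Results.MP_0fefc4_nt.AlmostAllMultiples
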