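import Pool.Agent.Y862.Sc

set_option autoImplicit false

/-!
# Iterates of `p ↦ 2 p - 1`: one third of the times, at every scale

`a_j(p) = 2 ^ j (p - 1) + 1` is the `j`-th iterate of `2 p - 1`. For every `R` and `ε > 0` there is `L` such
that for all `T ≥ L` and `η > 0` the following holds at EVERY large `x`: for at least `(1/3 - ε) T` of the
times `1 ≤ k ≤ T` there are at least `x ^ (1 - η)` primes `p ≤ x` whose next prime iterate is the `k`-th
one, followed by `R` composite iterates, and which are not one of the first `R` iterates of a prime.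
-/

namespace Pool.Agent.Results.MP_0fefc4_nt.ThirdOfTimesEveryScale

open Filter

theorem result (R : ℕ) (ε : ℝ) (hε : 0 < ε) : ∃ L : ℕ, ∀ T : ℕ, L ≤ T → ∀ η : ℝ, 0 < η →
    ∀ᶠ x : ℝ in atTop, (1 / 3 - ε) * (T : ℝ) ≤ ({k : ℕ | 1 ≤ k ∧ k ≤ T ∧
      x ^ (1 - η) ≤ ({p : ℕ | (p : ℝ) ≤ x ∧ p.Prime ∧ (2 ^ k * (p - 1) + 1).Prime ∧
        (∀ l, 0 < l → l < k → ¬ (2 ^ l * (p - 1) + 1).Prime) ∧
        ∀ l, 0 < l → l ≤ R → ¬ (2 ^ (k + l) * (p - 1) + 1).Prime ∧
          ∀ q : ℕ, q.Prime → 2 ^ l * (q - 1) + 1 ≠ p}.ncard : ℝ)}.ncard : ℝ) := by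
  have h := Pool.Agent.Y862.transferEv 2 (-1) 1 le_rfl (by norm_num) (by norm_num) one_pos
    (fun p hp h => absurd (Nat.dvd_one.1 (by simpa using h)) hp.one_lt.ne')
    (fun p j => 2 ^ j * (p - 1) + 1)
    (fun p j hp => by
      have h1 : 1 ≤ p := hp.one_lt.le
      rw [Pool.Agent.H447R3.IT.iter, Pool.Agent.W218.OG.B_two]
      push_cast [Nat.cast_sub h1]
      ring) R ε hε
  simp only [one_mul] at h
  exact h

end Pool.Agent.Results.MP_0fefc4_nt.ThirdOfTimesEveryScale
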