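import Pool.Agent.Y862.Thr

set_option autoImplicit false

/-!
# One of the first three iterates of `p ↦ 2 p + t`, up to a bounded shift

There is a constant `C` such that for every `η > 0`, every large `N` and EVERY integer `t` with
`|t| ≤ N` there are `i ≤ 3` and a shift `|h| ≤ C` such that for at least `N ^ (1 - η)` primes `p` in
`[N, C N]` the number `2 ^ i p + (2 ^ i - 1) t + h` is prime. For `h = 0` this is the `i`-th iterate of
`p ↦ 2 p + t`; for `t = -1` it is the `i`-th iterate of `p ↦ 2 p - 1`.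
-/

namespace Pool.Agent.Results.MP_0fefc4_nt.ThreeIterates

open Filter

theorem result : ∃ C : ℕ, ∀ η : ℝ, 0 < η → ∀ᶠ N : ℕ in atTop, ∀ t : ℤ, |t| ≤ N →
    ∃ (i : ℕ) (h : ℤ), 1 ≤ i ∧ i ≤ 3 ∧ |h| ≤ C ∧
      (N : ℝ) ^ (1 - η) ≤ (((Finset.Icc N (C * N)).filter (fun p : ℕ => p.Prime ∧
        (2 ^ i * (p : ℤ) + (2 ^ i - 1) * t + h).toNat.Prime)).card : ℝ) :=
  Pool.Agent.Y862.three

end Pool.Agent.Results.MP_0fefc4_nt.ThreeIterates
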